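import Pool.Agent.R624.Blk

/-!
# A bounded finite-one degree which is a dense linear order of 1-degrees

Problem MP_d57ee4_lc, Q1, answered in the affirmative.

Proof.  Let `b m` be the computable sequences of blocks of `Pool.Agent.R624.Blk` for an enumeration
`F` of the computable functions with bounded fibres.  The blocks `b k 0` are pairwise disjoint, and for
`m ≤ k` the block `b k 0` is a union of `2 ^ (k - m)` blocks of `b m`.  For a sufficiently generic
`x : ℕ → ℕ` let `A` be the union of the blocks `b k 0` with `x k = 0`, and let `T x` be the set of the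
numbers `3 y` with `y ∈ A` and of the numbers `3 y + 1`.  If `B` is reduced to `T x` by `F m`, then the
preimage of each block of `b (m + 1)` has the same number of elements, and a comparison of these numbers
decides whether `B` is one-one reducible to `B'`.
-/

set_option autoImplicit false

namespace Pool.Agent.Results.MP_d57ee4_lc.DenseOneDegrees

open Pool.Agent.Helper446
open Pool.Agent.R624.Blk
open Pool.Agent.Helper446.RE (cid cconst ccomp cfst csnd cpair cadd csub cmul cmin cmax csucc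
  cappend ccons clength cgetElem cencode cdecode csome cisSome cnot cand cor cunpair cnatpair
  cmapsnd cmapfst ccond)

/-! ### Definitions used in the statement -/

/-- `A` is one-one reducible to `B`. -/
def Red1 (A B : Set ℕ) : Prop :=
  ∃ f : ℕ → ℕ, Computable f ∧ (∀ x, x ∈ A ↔ f x ∈ B) ∧ Function.Injective f

/-- `A` is bounded finite-one reducible to `B`: some computable function reduces `A` to `B` and takes
each value at most `c` times, for some constant `c`. -/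
def RedB (A B : Set ℕ) : Prop :=
  ∃ (f : ℕ → ℕ) (c : ℕ), Computable f ∧ (∀ x, x ∈ A ↔ f x ∈ B) ∧ ∀ y, {z | f z = y}.encard ≤ c

theorem red1_refl (A : Set ℕ) : Red1 A A :=
  ⟨id, Computable.id, fun _ => Iff.rfl, Function.injective_id⟩

theorem red1_trans {A B C : Set ℕ} (h1 : Red1 A B) (h2 : Red1 B C) : Red1 A C := by
  obtain ⟨f, hf, hf1, hf2⟩ := h1
  obtain ⟨g, hg, hg1, hg2⟩ := h2
  exact ⟨fun x => g (f x), hg.comp hf, fun x => (hf1 x).trans (hg1 _), hg2.comp hf2⟩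

/-- The subsets of `ℕ`, preordered by one-one reducibility. -/
structure OneSet where
  /-- the underlying set -/
  carrier : Set ℕ

instance : Preorder OneSet where
  le A B := Red1 A.carrier B.carrier
  le_refl A := red1_refl A.carrier
  le_trans _ _ _ h1 h2 := red1_trans h1 h2

/-- The 1-degrees, with the order induced by one-one reducibility. -/
abbrev OneDegree : Type := Antisymmetrization OneSet (· ≤ ·)

/-- The 1-degree of a set. -/
def deg1 (A : Set ℕ) : OneDegree := toAntisymmetrization (· ≤ ·) (OneSet.mk A)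

theorem deg1_le {A B : Set ℕ} : deg1 A ≤ deg1 B ↔ Red1 A B := Iff.rfl

/-- The set of the 1-degrees which are contained in the bounded finite-one degree of `A`. -/
def Inside (A : Set ℕ) : Set OneDegree := {d | ∀ B, deg1 B = d → RedB B A ∧ RedB A B}

/-! ### Bounded fibres -/

theorem bd_id : Bd 1 id := by
  intro y
  have h : {z | id z = y} = {y} := by ext z; simp
  rw [h]
  simp

theorem bd_inj {f : ℕ → ℕ} (hf : Function.Injective f) : Bd 1 f := by
  intro y
  rw [Nat.cast_one, Set.encard_le_one_iff]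
  intro a b ha hb
  exact hf (Eq.trans ha (Eq.symm hb))

theorem bd_comp {c d : ℕ} {f g : ℕ → ℕ} (hf : Bd c f) (hg : Bd d g) :
    Bd (c * d) fun z => f (g z) := by
  intro y
  have hfin : {w | f w = y}.Finite := Set.finite_of_encard_le_coe (hf y)
  have h1 : {z | f (g z) = y} = ⋃ w ∈ hfin.toFinset, {z | g z = w} := by
    ext z
    simp
  rw [h1]
  refine (hfin.toFinset.set_encard_biUnion_le _).trans ?_
  refine (Finset.sum_le_sum fun w _ => hg w).trans ?_
  rw [Finset.sum_const, nsmul_eq_mul, Nat.cast_mul]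
  refine mul_le_mul_left ?_ _
  have h2 := hf y
  rw [hfin.encard_eq_coe_toFinset_card] at h2
  exact h2

theorem bd_mono {c d : ℕ} {f : ℕ → ℕ} (hf : Bd c f) (h : c ≤ d) : Bd d f :=
  fun y => (hf y).trans (Nat.cast_le.2 h)

theorem redB_trans {A B C : Set ℕ} (h1 : RedB A B) (h2 : RedB B C) : RedB A C := by
  obtain ⟨f, c, hf, hf1, hf2⟩ := h1
  obtain ⟨g, d, hg, hg1, hg2⟩ := h2
  exact ⟨fun x => g (f x), d * c, hg.comp hf, fun x => (hf1 x).trans (hg1 _), bd_comp hg2 hf2⟩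

theorem Red1.redB {A B : Set ℕ} (h : Red1 A B) : RedB A B := by
  obtain ⟨f, hf, hf1, hf2⟩ := h
  exact ⟨f, 1, hf, hf1, bd_inj hf2⟩

/-! ### Genericity -/

/-- `x'` agrees with `x` below `b`. -/
def Agree (b : ℕ) (x x' : ℕ → ℕ) : Prop := ∀ i < b, x' i = x i

/-- open sets of Baire space -/
def Op (O : Set (ℕ → ℕ)) : Prop := ∀ x ∈ O, ∃ b, ∀ x', Agree b x x' → x' ∈ O

theorem isOpen_cyl (b : ℕ) (x : ℕ → ℕ) : IsOpen {x' : ℕ → ℕ | Agree b x x'} := by
  have h : {x' : ℕ → ℕ | Agree b x x'} = ⋂ i ∈ Finset.range b, (fun x' : ℕ → ℕ => x' i) ⁻¹' {x i} := by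
    ext x'
    simp [Agree]
  rw [h]
  exact isOpen_biInter_finset fun i _ => (isOpen_discrete _).preimage (continuous_apply i)

theorem Op.isOpen {O : Set (ℕ → ℕ)} (hO : Op O) : IsOpen O := by
  rw [isOpen_iff_forall_mem_open]
  intro x hx
  obtain ⟨b, hb⟩ := hO x hx
  exact ⟨{x' | Agree b x x'}, fun x' hx' => hb x' hx', isOpen_cyl b x, fun i _ => rfl⟩

theorem exists_cyl {O : Set (ℕ → ℕ)} (hO : IsOpen O) {x : ℕ → ℕ} (hx : x ∈ O) :
    ∃ b, ∀ x', Agree b x x' → x' ∈ O := by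
  obtain ⟨I, u, h1, h2⟩ := isOpen_pi_iff.1 hO x hx
  refine ⟨I.sup id + 1, fun x' hx' => h2 ?_⟩
  intro i hi
  rw [hx' i (Nat.lt_succ_of_le (Finset.le_sup (f := id) hi))]
  exact (h1 i hi).2

theorem exists_generic (𝒪 : Set (Set (ℕ → ℕ))) (hc : 𝒪.Countable) (hO : ∀ O ∈ 𝒪, Op O) :
    ∃ g : ℕ → ℕ, ∀ O ∈ 𝒪, g ∈ O ∨ ∃ b, ∀ x, Agree b g x → x ∉ O := by
  have : Countable 𝒪 := hc.to_subtype
  have h1 : ∀ O : 𝒪, IsOpen ((O : Set (ℕ → ℕ)) ∪ interior (O : Set (ℕ → ℕ))ᶜ) :=
    fun O => (hO O O.2).isOpen.union isOpen_interior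
  have h2 : ∀ O : 𝒪, Dense ((O : Set (ℕ → ℕ)) ∪ interior (O : Set (ℕ → ℕ))ᶜ) := by
    intro O x
    by_cases hx : x ∈ closure (O : Set (ℕ → ℕ))
    · exact closure_mono Set.subset_union_left hx
    · refine subset_closure (Or.inr ?_)
      rw [interior_compl]
      exact hx
  obtain ⟨g, hg⟩ := (dense_iInter_of_isOpen h1 h2).nonempty
  rw [Set.mem_iInter] at hg
  refine ⟨g, fun O hOO => ?_⟩
  rcases hg ⟨O, hOO⟩ with h | h
  · exact Or.inl h
  · right
    obtain ⟨b, hb⟩ := exists_cyl isOpen_interior h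
    exact ⟨b, fun x hx => interior_subset (hb x hx)⟩

theorem countable_computable : {f : ℕ → ℕ | Computable f}.Countable := by
  have h : ∀ f : {f : ℕ → ℕ | Computable f}, ∃ c : Nat.Partrec.Code, c.eval = (f : ℕ → ℕ) := by
    rintro ⟨f, hf⟩
    exact Nat.Partrec.Code.exists_code.1 (Partrec.nat_iff.1 hf)
  choose c hc using h
  have : Function.Injective c := by
    intro f g hfg
    have h1 : ((f : ℕ → ℕ) : ℕ →. ℕ) = ((g : ℕ → ℕ) : ℕ →. ℕ) := by rw [← hc, ← hc, hfg]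
    apply Subtype.ext
    funext n
    exact Part.some_injective (congrFun h1 n)
  exact this.countable

/-- enumeration of the computable functions with bounded fibres -/
theorem exists_F : ∃ F : ℕ → ℕ → ℕ, (∀ m, Computable (F m) ∧ ∃ c, Bd c (F m)) ∧
    ∀ f, Computable f → ∀ c, Bd c f → ∃ m, F m = f := by
  have h1 : {f : ℕ → ℕ | Computable f ∧ ∃ c, Bd c f}.Countable :=
    countable_computable.mono fun f hf => hf.1
  obtain ⟨F, hF⟩ := h1.exists_eq_range ⟨id, Computable.id, 1, bd_id⟩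
  refine ⟨F, fun m => ?_, fun f hf c hc => ?_⟩
  · have : F m ∈ {f : ℕ → ℕ | Computable f ∧ ∃ c, Bd c f} := by rw [hF]; exact ⟨m, rfl⟩
    exact this
  · have : f ∈ {f : ℕ → ℕ | Computable f ∧ ∃ c, Bd c f} := ⟨hf, c, hc⟩
    rw [hF] at this
    exact this

section main

variable {F : ℕ → ℕ → ℕ} (S : Sys F)

/-- the set whose bounded finite-one degree is considered -/
def T (x : ℕ → ℕ) : Set ℕ := {w | (∃ k, x k = 0 ∧ ∃ y ∈ S.b k 0, w = 3 * y) ∨ ∃ y, w = 3 * y + 1}

theorem T_one (x : ℕ → ℕ) (y : ℕ) : 3 * y + 1 ∈ T S x := Or.inr ⟨y, rfl⟩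

theorem T_two (x : ℕ → ℕ) (y : ℕ) : 3 * y + 2 ∉ T S x := by
  rintro (⟨k, -, z, -, h⟩ | ⟨z, h⟩) <;> omega

theorem T_zero (x : ℕ → ℕ) (y : ℕ) : 3 * y ∈ T S x ↔ ∃ k, x k = 0 ∧ y ∈ S.b k 0 := by
  constructor
  · rintro (⟨k, h1, z, h2, h⟩ | ⟨z, h⟩)
    · have : y = z := by omega
      exact ⟨k, h1, this ▸ h2⟩
    · omega
  · rintro ⟨k, h1, h2⟩
    exact Or.inl ⟨k, h1, y, h2, rfl⟩

theorem T_block {x : ℕ → ℕ} {k y : ℕ} (hy : y ∈ S.b k 0) : 3 * y ∈ T S x ↔ x k = 0 := by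
  rw [T_zero]
  constructor
  · rintro ⟨k', h1, h2⟩
    rw [S.level_eq hy h2]
    exact h1
  · intro h
    exact ⟨k, h, hy⟩

/-- the membership in `T` does not depend on the other values -/
theorem T_update {x : ℕ → ℕ} {k v w : ℕ} (hw : ¬ ∃ y ∈ S.b k 0, w = 3 * y) :
    w ∈ T S (Function.update x k v) ↔ w ∈ T S x := by
  have h : ∀ k', k' ≠ k → (Function.update x k v) k' = x k' := fun k' h =>
    Function.update_of_ne h _ _
  constructor
  · rintro (⟨k', h1, z, h2, rfl⟩ | h1)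
    · have hk : k' ≠ k := by
        rintro rfl
        exact hw ⟨z, h2, rfl⟩
      rw [h k' hk] at h1
      exact Or.inl ⟨k', h1, z, h2, rfl⟩
    · exact Or.inr h1
  · rintro (⟨k', h1, z, h2, rfl⟩ | h1)
    · have hk : k' ≠ k := by
        rintro rfl
        exact hw ⟨z, h2, rfl⟩
      rw [← h k' hk] at h1
      exact Or.inl ⟨k', h1, z, h2, rfl⟩
    · exact Or.inr h1

theorem T_dep (w : ℕ) : ∃ b, ∀ x x', Agree b x x' → (w ∈ T S x ↔ w ∈ T S x') := by
  by_cases h : ∃ k, ∃ y ∈ S.b k 0, w = 3 * y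
  · obtain ⟨k, y, hy, rfl⟩ := h
    refine ⟨k + 1, fun x x' hx => ?_⟩
    rw [T_block S hy, T_block S hy, hx k (Nat.lt_succ_self k)]
  · refine ⟨0, fun x x' _ => ?_⟩
    constructor
    · rintro (⟨k', h1, z, h2, rfl⟩ | h1)
      · exact absurd ⟨k', z, h2, rfl⟩ h
      · exact Or.inr h1
    · rintro (⟨k', h1, z, h2, rfl⟩ | h1)
      · exact absurd ⟨k', z, h2, rfl⟩ h
      · exact Or.inr h1

/-- the two functions are not equivalent as reductions -/
def O (f g : ℕ → ℕ) : Set (ℕ → ℕ) := {x | ∃ z, ¬ (f z ∈ T S x ↔ g z ∈ T S x)}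

theorem O_op (f g : ℕ → ℕ) : Op (O S f g) := by
  rintro x ⟨z, hz⟩
  obtain ⟨b1, h1⟩ := T_dep S (f z)
  obtain ⟨b2, h2⟩ := T_dep S (g z)
  refine ⟨max b1 b2, fun x' hx' => ⟨z, ?_⟩⟩
  rw [← h1 x x' fun i hi => hx' i (lt_of_lt_of_le hi (le_max_left _ _)),
    ← h2 x x' fun i hi => hx' i (lt_of_lt_of_le hi (le_max_right _ _))]
  exact hz

/-- the rigidity property of the blocks -/
def Rigid (x : ℕ → ℕ) : Prop := ∀ f g : ℕ → ℕ, Computable f → Computable g →
  (∀ z, f z ∈ T S x ↔ g z ∈ T S x) →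
  ∃ K, ∀ k ≥ K, ∀ z, (∃ y ∈ S.b k 0, f z = 3 * y) → ∃ y ∈ S.b k 0, g z = 3 * y

theorem exists_rigid : ∃ x, Rigid S x := by
  have hc : ({f : ℕ → ℕ | Computable f} ×ˢ {f : ℕ → ℕ | Computable f}).Countable :=
    countable_computable.prod countable_computable
  obtain ⟨x, hx⟩ := exists_generic ((fun p : (ℕ → ℕ) × (ℕ → ℕ) => O S p.1 p.2) ''
    ({f : ℕ → ℕ | Computable f} ×ˢ {f : ℕ → ℕ | Computable f})) (hc.image _) (by
      rintro _ ⟨p, -, rfl⟩
      exact O_op S _ _)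
  refine ⟨x, fun f g hf hg h => ?_⟩
  rcases hx (O S f g) ⟨(f, g), ⟨hf, hg⟩, rfl⟩ with ⟨z, hz⟩ | ⟨b0, hb0⟩
  · exact absurd (h z) hz
  by_contra hcon
  push Not at hcon
  obtain ⟨k, hk, z, ⟨y, hy, hfz⟩, hgz⟩ := hcon b0
  have hgz' : ¬ ∃ y ∈ S.b k 0, g z = 3 * y := by
    rintro ⟨y, h1, h2⟩
    exact hgz y h1 h2
  classical
  let v : ℕ := if g z ∈ T S x then 1 else 0
  refine hb0 (Function.update x k v) ?_ ⟨z, ?_⟩
  · intro i hi
    rw [Function.update_of_ne]
    omega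
  · rw [T_update S hgz', hfz, T_block S hy, Function.update_self]
    by_cases hg2 : g z ∈ T S x
    · simp [v, hg2]
    · simp [v, hg2]

/-- `a` is the number of the elements of the preimage of each block of level `M` -/
def Val (x : ℕ → ℕ) (B : Set ℕ) (M a : ℕ) : Prop :=
  ∃ (f : ℕ → ℕ) (c : ℕ), Computable f ∧ Bd c f ∧ (∀ z, z ∈ B ↔ f z ∈ T S x) ∧
    ∀ j, cnt f (S.b M j) = a

theorem exists_val (hF : ∀ f, Computable f → ∀ c, Bd c f → ∃ m, F m = f) {x : ℕ → ℕ} {B : Set ℕ}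
    (h : RedB B (T S x)) : ∃ M a, Val S x B M a := by
  obtain ⟨f, c, h1, h2, h3⟩ := h
  obtain ⟨m, rfl⟩ := hF f h1 c h3
  obtain ⟨v, hv⟩ := S.const m
  exact ⟨m + 1, v, F m, c, h1, h3, h2, hv⟩

theorem Val.up {x : ℕ → ℕ} {B : Set ℕ} {M a : ℕ} (h : Val S x B M a) (d : ℕ) :
    Val S x B (M + d) (2 ^ d * a) := by
  obtain ⟨f, c, h1, h2, h3, h4⟩ := h
  exact ⟨f, c, h1, h2, h3, S.cnt_up h2 h4 d⟩

theorem neg {x : ℕ → ℕ} (hx : Rigid S x) {B B' : Set ℕ} {M a a' : ℕ} (h : Red1 B B')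
    (hB : Val S x B M a) (hB' : Val S x B' M a') : a ≤ a' := by
  obtain ⟨f, c, h1, h2, h3, h4⟩ := hB
  obtain ⟨f', c', h1', h2', h3', h4'⟩ := hB'
  obtain ⟨g, g1, g2, g3⟩ := h
  obtain ⟨K, hK⟩ := hx f (fun z => f' (g z)) h1 (h1'.comp g1) fun z => by
    rw [← h3, ← h3', g2]
  have h5 := S.cnt_up h2 h4 K 0
  have h5' := S.cnt_up h2' h4' K 0
  have h6 : cnt f (S.b (M + K) 0) ≤ cnt f' (S.b (M + K) 0) := by
    refine Set.ncard_le_ncard_of_injOn g ?_ g3.injOn (pre_finite h2' _)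
    intro z hz
    exact hK (M + K) (Nat.le_add_left _ _) z hz
  rw [h5, h5'] at h6
  exact Nat.le_of_mul_le_mul_left h6 (by positivity)

/-- The reduction when there is enough room. -/
theorem pos_aux {x : ℕ → ℕ} {B B' : Set ℕ} {f f' u1 u2 : ℕ → ℕ} {c c' M a a' : ℕ}
    (hf : Computable f) (hf' : Computable f') (hc : Bd c f) (hc' : Bd c' f')
    (hB : ∀ z, z ∈ B ↔ f z ∈ T S x) (hB' : ∀ z, z ∈ B' ↔ f' z ∈ T S x)
    (hu1 : Computable u1) (hu2 : Computable u2) (hi1 : Function.Injective u1)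
    (hi2 : Function.Injective u2) (ht1 : ∀ i, ∃ y, f' (u1 i) = 3 * y + 1)
    (ht2 : ∀ i, ∃ y, f' (u2 i) = 3 * y + 2) (ha : ∀ j, cnt f (S.b M j) = a)
    (ha' : ∀ j, cnt f' (S.b M j) = a') (hle : a ≤ a') : Red1 B B' := by
  classical
  -- the elements of the small blocks
  obtain ⟨FL, hFL⟩ : ∃ FL : List ℕ, ∀ w, w ∈ FL ↔ ∃ k < M, x k = 0 ∧ ∃ y ∈ S.b k 0, w = 3 * y := by
    refine ⟨((List.range M).filter fun k => decide (x k = 0)).flatMap
      fun k => (S.b k 0).map fun y => 3 * y, fun w => ?_⟩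
    simp only [List.mem_flatMap, List.mem_filter, List.mem_range, decide_eq_true_eq,
      List.mem_map]
    constructor
    · rintro ⟨k, ⟨h1, h2⟩, y, h3, rfl⟩
      exact ⟨k, h1, h2, y, h3, rfl⟩
    · rintro ⟨k, h1, h2, y, h3, rfl⟩
      exact ⟨k, ⟨h1, h2⟩, y, h3, rfl⟩
  let G : ℕ → ℕ → Prop := fun z z' =>
    ((f z ∈ FL ∨ f z % 3 = 1) ∧ z' = u1 z) ∨
    ((f z ∉ FL ∧ f z % 3 ≠ 1 ∧ ∀ j < f z + 1, ∀ y ∈ S.b M j, f z ≠ 3 * y) ∧ z' = u2 z) ∨
    ∃ j, z ∈ pre f (S.b M j) ∧ z' ∈ pre f' (S.b M j) ∧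
      num f' (S.b M j) z' = num f (S.b M j) z
  have hb := S.comp M
  have hmod : Computable fun z => f z % 3 := Primrec.nat_mod.to_comp.comp hf (Computable.const 3)
  have hG : REPred fun p : ℕ × ℕ => G p.1 p.2 := by
    refine RE.or (RE.and (RE.or ?_ ?_) ?_) (RE.or (RE.and (RE.and ?_ (RE.and ?_ ?_)) ?_) ?_)
    · exact RE.mem_list (by fun_prop) (by fun_prop)
    · exact RE.eq (hmod.comp Computable.fst) (by fun_prop)
    · exact RE.eq (by fun_prop) (by fun_prop)
    · exact RE.not_mem_list (by fun_prop) (by fun_prop)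
    · exact RE.ne (hmod.comp Computable.fst) (by fun_prop)
    · refine RE.all_lt (p := fun (p : ℕ × ℕ) (j : ℕ) => ∀ y ∈ S.b M j, f p.1 ≠ 3 * y) ?_
        (by fun_prop)
      exact RE.all_mem (p := fun (q : (ℕ × ℕ) × ℕ) (y : ℕ) => f q.1.1 ≠ 3 * y)
        (RE.ne (by fun_prop) (by fun_prop)) (by fun_prop)
    · exact RE.eq (by fun_prop) (by fun_prop)
    · refine RE.exN (p := fun (p : ℕ × ℕ) (j : ℕ) => p.1 ∈ pre f (S.b M j) ∧
        p.2 ∈ pre f' (S.b M j) ∧ num f' (S.b M j) p.2 = num f (S.b M j) p.1) ?_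
      refine RE.and ?_ (RE.and ?_ ?_)
      · exact (cp_pre (b := fun q : (ℕ × ℕ) × ℕ => S.b M q.2) (g := fun q => q.1.1) hf
          (by fun_prop) (by fun_prop)).to_re
      · exact (cp_pre (b := fun q : (ℕ × ℕ) × ℕ => S.b M q.2) (g := fun q => q.1.2) hf'
          (by fun_prop) (by fun_prop)).to_re
      · exact RE.eq (num_comp (b := fun q : (ℕ × ℕ) × ℕ => S.b M q.2) (g := fun q => q.1.2) hf'
          (by fun_prop) (by fun_prop)) (num_comp (b := fun q : (ℕ × ℕ) × ℕ => S.b M q.2)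
          (g := fun q => q.1.1) hf (by fun_prop) (by fun_prop))
  have htot : ∀ z, ∃ z', G z z' := by
    intro z
    by_cases h1 : f z ∈ FL ∨ f z % 3 = 1
    · exact ⟨u1 z, Or.inl ⟨h1, rfl⟩⟩
    push Not at h1
    by_cases h2 : ∀ j < f z + 1, ∀ y ∈ S.b M j, f z ≠ 3 * y
    · exact ⟨u2 z, Or.inr (Or.inl ⟨⟨h1.1, h1.2, h2⟩, rfl⟩)⟩
    push Not at h2
    obtain ⟨j, -, y, hy, hfz⟩ := h2
    have h3 : z ∈ pre f (S.b M j) := ⟨y, hy, hfz⟩
    have h4 : num f (S.b M j) z < cnt f' (S.b M j) := by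
      have h5 := num_succ_of_mem h3
      have h6 := num_le hc (S.b M j) (z + 1)
      rw [ha] at h6
      rw [ha']
      omega
    obtain ⟨z', h5, h6⟩ := num_surj hc' h4
    exact ⟨z', Or.inr (Or.inr ⟨j, h3, h5, h6⟩)⟩
  obtain ⟨H, hH, hGh⟩ : ∃ H : ℕ → ℕ, Computable H ∧ ∀ z, G z (H z) := by
    obtain ⟨h, hh, hd, hs⟩ := RE.uniformize hG
    have hd' : ∀ z, (h z).Dom := fun z => (hd z).2 (htot z)
    exact ⟨fun z => (h z).get (hd' z), hh.of_eq_tot fun z => Part.get_mem _,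
      fun z => hs z _ (Part.get_mem _)⟩
  refine ⟨H, hH, fun z => ?_, ?_⟩
  · rw [hB, hB']
    have hg := hGh z
    generalize H z = z' at hg
    rcases hg with ⟨h1, rfl⟩ | ⟨⟨h1, h2, h3⟩, rfl⟩ | ⟨j, ⟨y, hy, hfy⟩, ⟨y', hy', hfy'⟩, -⟩
    · obtain ⟨y, hy⟩ := ht1 z
      rw [hy]
      refine iff_of_true ?_ (T_one S x y)
      rcases h1 with h1 | h1
      · obtain ⟨k, -, hk, y, hy, hfy⟩ := (hFL _).1 h1
        rw [hfy, T_zero]
        exact ⟨k, hk, hy⟩
      · exact Or.inr ⟨f z / 3, by omega⟩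
    · obtain ⟨y, hy⟩ := ht2 z
      rw [hy]
      refine iff_of_false ?_ (T_two S x y)
      rintro (⟨k, hk, y, hy, hfy⟩ | ⟨y, hfy⟩)
      · by_cases hkM : k < M
        · exact h1 ((hFL _).2 ⟨k, hkM, hk, y, hy, hfy⟩)
        · obtain ⟨i, hi⟩ := S.up (m := M) (by omega) hy
          have h4 := S.index_le hi
          exact h3 i (by omega) y hi hfy
      · omega
    · rw [hfy, hfy', T_zero, T_zero]
      have key : ∀ k, y ∈ S.b k 0 ↔ y' ∈ S.b k 0 := by
        intro k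
        by_cases hkM : k < M
        · exact iff_of_false (S.up' hkM hy) (S.up' hkM hy')
        · rcases S.whole (m := M) (k := k) (by omega) j 0 with h5 | h5
          · exact iff_of_true (h5 y hy) (h5 y' hy')
          · exact iff_of_false (h5 y hy) (h5 y' hy')
      simp only [key]
  · intro z1 z2 h12
    have hg1 := hGh z1
    have hg2 := hGh z2
    rw [← h12] at hg2
    generalize H z1 = z' at hg1 hg2
    rcases hg1 with ⟨-, h1⟩ | ⟨-, h1⟩ | ⟨j1, a1, ⟨y1, b1, b1'⟩, c1⟩ <;>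
      rcases hg2 with ⟨-, h2⟩ | ⟨-, h2⟩ | ⟨j2, a2, ⟨y2, b2, b2'⟩, c2⟩
    · exact hi1 (h1.symm.trans h2)
    · obtain ⟨y, hy⟩ := ht1 z1
      obtain ⟨y', hy'⟩ := ht2 z2
      rw [← h1] at hy
      rw [← h2] at hy'
      omega
    · obtain ⟨y, hy⟩ := ht1 z1
      rw [← h1] at hy
      omega
    · obtain ⟨y, hy⟩ := ht2 z1
      obtain ⟨y', hy'⟩ := ht1 z2
      rw [← h1] at hy
      rw [← h2] at hy'
      omega
    · exact hi2 (h1.symm.trans h2)
    · obtain ⟨y, hy⟩ := ht2 z1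
      rw [← h1] at hy
      omega
    · obtain ⟨y, hy⟩ := ht1 z2
      rw [← h2] at hy
      omega
    · obtain ⟨y, hy⟩ := ht2 z2
      rw [← h2] at hy
      omega
    · have hyy : y1 = y2 := by omega
      subst hyy
      have hj := S.index_eq b1 b2
      subst hj
      exact num_inj a1 a2 (c1.symm.trans c2)

theorem mem_range_comp {u : ℕ → ℕ} (hu : Computable u) (hm : StrictMono u) :
    ComputablePred fun z => ∃ i, u i = z := by
  refine RE.cp_of_re ?_ ?_
  · exact RE.exN (p := fun (z : ℕ) (i : ℕ) => u i = z) (RE.eq (by fun_prop) (by fun_prop))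
  · refine (RE.all_lt (p := fun (z : ℕ) (i : ℕ) => u i ≠ z) (f := fun z => z + 1)
      (RE.ne (by fun_prop) (by fun_prop)) (by fun_prop)).of_eq fun z => ?_
    constructor
    · rintro h ⟨i, hi⟩
      have := hm.le_apply (x := i)
      exact h i (by omega) hi
    · intro h i _ hi
      exact h ⟨i, hi⟩

theorem unbounded_range {g : ℕ → ℕ} {d : ℕ} (hg : Bd d g) {s : ℕ → ℕ}
    (hs : Function.Injective s) (N : ℕ) : ∃ w ≥ N, ∃ y, g (s y) = w := by
  by_contra hcon
  push Not at hcon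
  have h1 : Set.Finite {z | g z < N} := by
    have h2 : {z | g z < N} = ⋃ w ∈ Set.Iio N, {z | g z = w} := by
      ext z
      simp
    rw [h2]
    exact (Set.finite_Iio N).biUnion fun w _ => Set.finite_of_encard_le_coe (hg w)
  refine Set.infinite_univ (α := ℕ) (Set.Finite.subset (h1.preimage hs.injOn) ?_)
  intro y _
  show g (s y) < N
  by_contra h3
  exact hcon (g (s y)) (by omega) y rfl

/-- A reduction with room for the trivial elements. -/
theorem exists_normal {x : ℕ → ℕ} {B : Set ℕ} (h1 : RedB B (T S x)) (h2 : RedB (T S x) B) :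
    ∃ (f u1 u2 : ℕ → ℕ) (c : ℕ), Computable f ∧ Bd c f ∧ (∀ z, z ∈ B ↔ f z ∈ T S x) ∧
      Computable u1 ∧ Computable u2 ∧ Function.Injective u1 ∧ Function.Injective u2 ∧
      (∀ i, ∃ y, f (u1 i) = 3 * y + 1) ∧ ∀ i, ∃ y, f (u2 i) = 3 * y + 2 := by
  classical
  obtain ⟨f, c, hf, hf1, hf2⟩ := h1
  obtain ⟨g, d, hg, hg1, hg2⟩ := h2
  obtain ⟨u1, a1, b1, c1⟩ := exists_strictMono (r := fun w => ∃ y, g (3 * y + 1) = w)
    (RE.exN (p := fun (w y : ℕ) => g (3 * y + 1) = w) (RE.eq (by fun_prop) (by fun_prop)))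
    (unbounded_range hg2 (s := fun y => 3 * y + 1) (fun a b h => by simp at h; exact h))
  obtain ⟨u2, a2, b2, c2⟩ := exists_strictMono (r := fun w => ∃ y, g (3 * y + 2) = w)
    (RE.exN (p := fun (w y : ℕ) => g (3 * y + 2) = w) (RE.eq (by fun_prop) (by fun_prop)))
    (unbounded_range hg2 (s := fun y => 3 * y + 2) (fun a b h => by simp at h; exact h))
  have h1 : ∀ i, u1 i ∈ B := by
    intro i
    obtain ⟨y, hy⟩ := c1 i
    rw [← hy, ← hg1]
    exact T_one S x y
  have h2 : ∀ i, u2 i ∉ B := by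
    intro i
    obtain ⟨y, hy⟩ := c2 i
    rw [← hy, ← hg1]
    exact T_two S x y
  let f' : ℕ → ℕ := fun z => if ∃ i, u1 i = z then 3 * z + 1 else
    if ∃ i, u2 i = z then 3 * z + 2 else f z
  have hf' : Computable f' := RE.cite (mem_range_comp a1 b1) (by fun_prop)
    (RE.cite (mem_range_comp a2 b2) (by fun_prop) hf)
  have e1 : ∀ i, f' (u1 i) = 3 * u1 i + 1 := fun i => if_pos ⟨i, rfl⟩
  have e2 : ∀ i, f' (u2 i) = 3 * u2 i + 2 := by
    intro i
    have h3 : ¬ ∃ j, u1 j = u2 i := by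
      rintro ⟨j, hj⟩
      exact h2 i (hj ▸ h1 j)
    show (if ∃ j, u1 j = u2 i then _ else _) = _
    rw [if_neg h3, if_pos ⟨i, rfl⟩]
  refine ⟨f', u1, u2, 1 + (1 + c), hf', ?_, ?_, a1, a2, b1.injective, b2.injective,
    fun i => ⟨_, e1 i⟩, fun i => ⟨_, e2 i⟩⟩
  · intro y
    have h3 : {z | f' z = y} ⊆ {z | 3 * z + 1 = y} ∪ ({z | 3 * z + 2 = y} ∪ {z | f z = y}) := by
      intro z hz
      have hz' : (if ∃ i, u1 i = z then 3 * z + 1 else
        if ∃ i, u2 i = z then 3 * z + 2 else f z) = y := hz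
      split_ifs at hz' with h4 h5
      · exact Or.inl hz'
      · exact Or.inr (Or.inl hz')
      · exact Or.inr (Or.inr hz')
    refine (Set.encard_le_encard h3).trans ((Set.encard_union_le _ _).trans ?_)
    rw [Nat.cast_add]
    refine add_le_add (bd_inj (f := fun z => 3 * z + 1) (fun a b h => by simp at h; exact h) y)
      ((Set.encard_union_le _ _).trans ?_)
    rw [Nat.cast_add]
    exact add_le_add (bd_inj (f := fun z => 3 * z + 2) (fun a b h => by simp at h; exact h) y)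
      (hf2 y)
  · intro z
    by_cases h3 : ∃ i, u1 i = z
    · obtain ⟨i, rfl⟩ := h3
      rw [e1]
      exact iff_of_true (h1 i) (T_one S x _)
    · by_cases h4 : ∃ i, u2 i = z
      · obtain ⟨i, rfl⟩ := h4
        rw [e2]
        exact iff_of_false (h2 i) (T_two S x _)
      · have h5 : f' z = f z := by
          show (if ∃ i, u1 i = z then _ else _) = _
          rw [if_neg h3, if_neg h4]
        rw [h5]
        exact hf1 z

theorem pos (hF : ∀ f, Computable f → ∀ c, Bd c f → ∃ m, F m = f) {x : ℕ → ℕ} (hx : Rigid S x)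
    {B B' : Set ℕ} {M a a' : ℕ} (h1 : RedB B' (T S x)) (h2 : RedB (T S x) B')
    (hB : Val S x B M a) (hB' : Val S x B' M a') (hle : a ≤ a') : Red1 B B' := by
  obtain ⟨f', u1, u2, c', e1, e2, e3, e4, e5, e6, e7, e8, e9⟩ := exists_normal S h1 h2
  obtain ⟨m, rfl⟩ := hF f' e1 c' e2
  obtain ⟨v, hv⟩ := S.const m
  have e10 := S.cnt_up e2 hv M
  obtain ⟨f, c, d1, d2, d3, d4⟩ := hB
  have d5 := S.cnt_up d2 d4 (m + 1)
  have e11 : Val S x B' (M + (m + 1)) (2 ^ M * v) := by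
    refine ⟨F m, c', e1, e2, e3, fun j => ?_⟩
    rw [Nat.add_comm]
    exact e10 j
  have e12 := neg S hx (red1_refl B') (hB'.up S (m + 1)) e11
  refine pos_aux S (M := M + (m + 1)) d1 e1 d2 e2 d3 e3 e4 e5 e6 e7 e8 e9 d5
    (fun j => by rw [Nat.add_comm]; exact e10 j) (le_trans ?_ e12)
  exact Nat.mul_le_mul_left _ hle

/-- There is a set with a slightly larger number. -/
theorem exists_larger {x : ℕ → ℕ} {B : Set ℕ} {M a : ℕ} (h2 : RedB (T S x) B)
    (hB : Val S x B M a) :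
    ∃ B', RedB B' (T S x) ∧ RedB (T S x) B' ∧ Val S x B' (M + 1) (2 * a + 1) := by
  classical
  obtain ⟨f, c, d1, d2, d3, d4⟩ := hB.up S 1
  let p : ℕ → ℕ := fun j => ((S.b (M + 1) j)[0]?).getD 0
  have hp : ∀ j, p j ∈ S.b (M + 1) j := by
    intro j
    have h := List.length_pos_iff.2 (S.ne (M + 1) j)
    show ((S.b (M + 1) j)[0]?).getD 0 ∈ _
    rw [List.getElem?_eq_getElem h, Option.getD_some]
    exact List.getElem_mem h
  have hpc : Computable p := by
    have h := S.comp (M + 1)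
    exact Computable.option_getD (f := fun j => (S.b (M + 1) j)[0]?) (g := fun _ => 0)
      (by fun_prop) (Computable.const 0)
  have hpi : Function.Injective p := by
    intro i j hij
    exact S.index_eq (hp i) (hij ▸ hp j)
  let f' : ℕ → ℕ := fun w => if w % 2 = 0 then f (w / 2) else 3 * p (w / 2)
  have hmod : Computable fun w : ℕ => w % 2 :=
    Primrec.nat_mod.to_comp.comp Computable.id (Computable.const 2)
  have hdiv : Computable fun w : ℕ => w / 2 :=
    Primrec.nat_div.to_comp.comp Computable.id (Computable.const 2)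
  have hf' : Computable f' := RE.cite (RE.cp_eq hmod (Computable.const 0)) (d1.comp hdiv)
    (by fun_prop)
  have e0 : ∀ z, f' (2 * z) = f z := by
    intro z
    show (if 2 * z % 2 = 0 then _ else _) = _
    rw [if_pos (by omega), Nat.mul_div_cancel_left z (by norm_num)]
  have e1 : ∀ z, f' (2 * z + 1) = 3 * p z := by
    intro z
    show (if (2 * z + 1) % 2 = 0 then _ else _) = _
    rw [if_neg (by omega)]
    congr 2
    omega
  have hbd : Bd (c + 1) f' := by
    intro y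
    have h3 : {w | f' w = y} ⊆ (fun z => 2 * z) '' {z | f z = y} ∪
        (fun z => 2 * z + 1) '' {z | 3 * p z = y} := by
      intro w hw
      rcases Nat.even_or_odd' w with ⟨k, rfl | rfl⟩
      · left
        refine ⟨k, ?_, rfl⟩
        have : f' (2 * k) = y := hw
        rwa [e0] at this
      · right
        refine ⟨k, ?_, rfl⟩
        have : f' (2 * k + 1) = y := hw
        rwa [e1] at this
    refine (Set.encard_le_encard h3).trans ((Set.encard_union_le _ _).trans ?_)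
    rw [Nat.cast_add]
    refine add_le_add ((Set.encard_image_le _ _).trans (d2 y)) ((Set.encard_image_le _ _).trans ?_)
    exact bd_inj (f := fun z => 3 * p z) (fun a b h => hpi (by
      have h' : 3 * p a = 3 * p b := h
      omega)) y
  have hinj : Function.Injective fun z : ℕ => 2 * z := fun a b h => by
    have h' : 2 * a = 2 * b := h
    omega
  have hcnt : ∀ j, cnt f' (S.b (M + 1) j) = 2 * a + 1 := by
    intro j
    have h3 : pre f' (S.b (M + 1) j) = insert (2 * j + 1) ((fun z => 2 * z) ''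
        pre f (S.b (M + 1) j)) := by
      ext w
      simp only [Set.mem_insert_iff, Set.mem_image]
      constructor
      · rintro ⟨y, hy, hw⟩
        rcases Nat.even_or_odd' w with ⟨k, rfl | rfl⟩
        · rw [e0] at hw
          exact Or.inr ⟨k, ⟨y, hy, hw⟩, rfl⟩
        · rw [e1] at hw
          have h4 : p k = y := by omega
          rw [← h4] at hy
          left
          rw [S.index_eq (hp k) hy]
      · rintro (rfl | ⟨z, ⟨y, hy, hz⟩, rfl⟩)
        · exact ⟨p j, hp j, e1 j⟩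
        · exact ⟨y, hy, by rw [e0, hz]⟩
    unfold cnt
    rw [h3, Set.ncard_insert_of_notMem _ ((pre_finite d2 _).image _),
      Set.ncard_image_of_injective _ hinj]
    · have := d4 j
      unfold cnt at this
      rw [this]
      ring
    · rintro ⟨z, -, hz⟩
      have h' : 2 * z = 2 * j + 1 := hz
      omega
  refine ⟨{w | f' w ∈ T S x}, ⟨f', c + 1, hf', fun _ => Iff.rfl, hbd⟩, ?_,
    ⟨f', c + 1, hf', hbd, fun _ => Iff.rfl, hcnt⟩⟩
  refine redB_trans h2 (Red1.redB ⟨fun z => 2 * z, by fun_prop, fun z => ?_, hinj⟩)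
  show z ∈ B ↔ f' (2 * z) ∈ T S x
  rw [e0, d3]

end main

theorem inside_deg1 {A B : Set ℕ} (h1 : RedB B A) (h2 : RedB A B) : deg1 B ∈ Inside A := by
  intro B' hB'
  have h3 : Red1 B' B := deg1_le.1 hB'.le
  have h4 : Red1 B B' := deg1_le.1 hB'.ge
  exact ⟨redB_trans h3.redB h1, redB_trans h2 h4.redB⟩

theorem exists_rep (a : OneDegree) : ∃ A, deg1 A = a := by
  induction a using Quotient.inductionOn with
  | _ A => exact ⟨A.carrier, rfl⟩

/-- **Answer to Q1 (affirmative).** There is a set `A` such that the 1-degrees contained in the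
bounded finite-one degree of `A` form a dense linear order with at least two elements. -/
theorem result : ∃ A : Set ℕ,
    (∀ a ∈ Inside A, ∀ b ∈ Inside A, a ≤ b ∨ b ≤ a) ∧
    (∀ a ∈ Inside A, ∀ b ∈ Inside A, a < b → ∃ c ∈ Inside A, a < c ∧ c < b) ∧
    (Inside A).Nontrivial := by
  obtain ⟨F, hF1, hF2⟩ := exists_F
  obtain ⟨S⟩ := exists_sys F hF1
  obtain ⟨x, hx⟩ := exists_rigid S
  have hT : RedB (T S x) (T S x) := (red1_refl _).redB
  -- two values on a common level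
  have common : ∀ {B B' : Set ℕ}, RedB B (T S x) → RedB B' (T S x) →
      ∃ M a a', Val S x B M a ∧ Val S x B' M a' := by
    intro B B' h h'
    obtain ⟨M, a, h1⟩ := exists_val S hF2 h
    obtain ⟨M', a', h1'⟩ := exists_val S hF2 h'
    refine ⟨M + M', 2 ^ M' * a, 2 ^ M * a', h1.up S M', ?_⟩
    rw [Nat.add_comm]
    exact h1'.up S M
  refine ⟨T S x, ?_, ?_, ?_⟩
  · intro a ha b hb
    obtain ⟨B, rfl⟩ := exists_rep a
    obtain ⟨B', rfl⟩ := exists_rep b
    obtain ⟨h1, h2⟩ := ha B rfl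
    obtain ⟨h1', h2'⟩ := hb B' rfl
    obtain ⟨M, a, a', h3, h3'⟩ := common h1 h1'
    rcases le_total a a' with h | h
    · exact Or.inl (deg1_le.2 (pos S hF2 hx h1' h2' h3 h3' h))
    · exact Or.inr (deg1_le.2 (pos S hF2 hx h1 h2 h3' h3 h))
  · intro a ha b hb hab
    obtain ⟨B, rfl⟩ := exists_rep a
    obtain ⟨B', rfl⟩ := exists_rep b
    obtain ⟨h1, h2⟩ := ha B rfl
    obtain ⟨h1', h2'⟩ := hb B' rfl
    obtain ⟨M, a, a', h3, h3'⟩ := common h1 h1'
    have hlt : a < a' := by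
      by_contra hc
      push Not at hc
      exact hab.not_ge (deg1_le.2 (pos S hF2 hx h1 h2 h3' h3 hc))
    obtain ⟨C, c1, c2, c3⟩ := exists_larger S h2 h3
    have h4 := h3.up S 1
    have h4' := h3'.up S 1
    refine ⟨deg1 C, inside_deg1 c1 c2, lt_of_le_not_ge ?_ ?_, lt_of_le_not_ge ?_ ?_⟩
    · exact deg1_le.2 (pos S hF2 hx c1 c2 h4 c3 (by omega))
    · intro h
      have := neg S hx (deg1_le.1 h) c3 h4
      omega
    · exact deg1_le.2 (pos S hF2 hx h1' h2' c3 h4' (by omega))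
    · intro h
      have := neg S hx (deg1_le.1 h) h4' c3
      omega
  · obtain ⟨M, a, h3⟩ := exists_val S hF2 hT
    obtain ⟨C, c1, c2, c3⟩ := exists_larger S hT h3
    refine ⟨deg1 (T S x), inside_deg1 hT hT, deg1 C, inside_deg1 c1 c2, fun h => ?_⟩
    have := neg S hx (deg1_le.1 h.ge) c3 (h3.up S 1)
    omega

end Pool.Agent.Results.MP_d57ee4_lc.DenseOneDegrees
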